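import Pool.Agent.J4H27.GC.Defs3

/-!
# Project GC: the auxiliary polynomial (Siegel's lemma)
-/

set_option autoImplicit false

open MvPolynomial NumberField

namespace Pool.Agent.J4H52.GC

open Pool.Agent.J4H27.GC

/-- Siegel's lemma over the ring of integers, in a convenient form (from H297R2, Y728). -/
theorem siegelK (K : Type) [Field K] [NumberField K] : ∃ C : ℝ, 1 ≤ C ∧
    ∀ (α β : Type) [Fintype α] [Fintype β] (a : Matrix α β (𝓞 K)), a ≠ 0 →
      0 < Fintype.card α → 2 * Fintype.card α ≤ Fintype.card β → ∀ A : ℝ, 1 ≤ A →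
      (∀ k l, house (a k l : K) ≤ A) →
      ∃ ξ : β → 𝓞 K, ξ ≠ 0 ∧ a.mulVec ξ = 0 ∧
        ∀ l, house (ξ l : K) ≤ C * (C * Fintype.card β * A) := by
  classical
  obtain ⟨c, hc⟩ : ∃ c : ℝ, ∀ (α β : Type) [Fintype α] [Fintype β] (a : Matrix α β (𝓞 K)), a ≠ 0 →
      0 < Fintype.card α → Fintype.card α < Fintype.card β → ∀ A : ℝ,
      (∀ k l, house (a k l : K) ≤ A) →
      ∃ ξ : β → 𝓞 K, ξ ≠ 0 ∧ a.mulVec ξ = 0 ∧
        ∀ l, house (ξ l : K) ≤ c * ((c * (Fintype.card β : ℕ) * A) ^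
          (((Fintype.card α : ℕ) : ℝ) / ((Fintype.card β : ℕ) - (Fintype.card α : ℕ)))) :=
    ⟨_, fun α β _ _ a ha h0 hpq A habs =>
      NumberField.house.exists_ne_zero_int_vec_house_le K a ha h0 hpq rfl habs rfl⟩
  refine ⟨max 1 |c|, le_max_left _ _, ?_⟩
  intro α β _ _ a ha h0 hpq A hA habs
  obtain ⟨ξ, h1, h2, h3⟩ := hc α β a ha h0 (by omega) A habs
  refine ⟨ξ, h1, h2, fun l => (h3 l).trans ?_⟩
  set C := max 1 |c| with hC
  have hC1 : 1 ≤ C := le_max_left _ _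
  have hcC : |c| ≤ C := le_max_right _ _
  set q : ℝ := ((Fintype.card β : ℕ) : ℝ) with hq
  set p : ℝ := ((Fintype.card α : ℕ) : ℝ) with hp
  have hp1 : (1 : ℝ) ≤ p := by rw [hp]; exact_mod_cast h0
  have hpq' : 2 * p ≤ q := by rw [hp, hq]; exact_mod_cast hpq
  have hq1 : 1 ≤ q := by linarith
  set e : ℝ := p / (q - p) with he
  have he0 : 0 ≤ e := by rw [he]; apply div_nonneg <;> linarith
  have he1 : e ≤ 1 := by rw [he, div_le_one (by linarith)]; linarith
  have hbig : 1 ≤ C * q * A := by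
    calc (1 : ℝ) = 1 * 1 * 1 := by ring
      _ ≤ C * q * A := by gcongr
  calc c * (c * q * A) ^ e ≤ |c * (c * q * A) ^ e| := le_abs_self _
    _ = |c| * |(c * q * A) ^ e| := abs_mul _ _
    _ ≤ C * |c * q * A| ^ e := by
        gcongr
        exact Real.abs_rpow_le_abs_rpow _ _
    _ ≤ C * (C * q * A) ^ e := by
        gcongr
        rw [abs_mul, abs_mul, abs_of_nonneg (by linarith : (0 : ℝ) ≤ q),
          abs_of_nonneg (by linarith : (0 : ℝ) ≤ A)]
        gcongr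
    _ ≤ C * (C * q * A) ^ (1 : ℝ) := by
        gcongr
    _ = C * (C * q * A) := by rw [Real.rpow_one]

/-- Siegel's lemma, including the trivial cases -/
theorem siegel2 (K : Type) [Field K] [NumberField K] : ∃ C : ℝ, 1 ≤ C ∧
    ∀ (α β : Type) [Fintype α] [Fintype β] (a : α → β → 𝓞 K), 0 < Fintype.card β →
      2 * Fintype.card α ≤ Fintype.card β → ∀ A : ℝ, 1 ≤ A → (∀ k l, hs (a k l) ≤ A) →
      ∃ ξ : β → 𝓞 K, (∃ l, ξ l ≠ 0) ∧ (∀ k, ∑ l, a k l * ξ l = 0) ∧
        ∀ l, hs (ξ l) ≤ C * (C * Fintype.card β * A) := by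
  classical
  obtain ⟨C, hC, h⟩ := siegelK K
  refine ⟨C, hC, fun α β _ _ a hβ hab A hA habs => ?_⟩
  have hq1 : (1 : ℝ) ≤ Fintype.card β := by exact_mod_cast hβ
  by_cases ha : (a : Matrix α β (𝓞 K)) = 0
  · refine ⟨fun _ => 1, ?_, fun k => ?_, fun l => ?_⟩
    · obtain ⟨l⟩ := Fintype.card_pos_iff.1 hβ
      exact ⟨l, one_ne_zero⟩
    · refine Finset.sum_eq_zero (fun l _ => ?_)
      have := congrFun (congrFun ha k) l
      rw [this]
      simp
    · rw [hs_one]
      calc (1 : ℝ) = 1 * (1 * 1 * 1) := by ring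
        _ ≤ C * (C * Fintype.card β * A) := by gcongr
  · have hα : 0 < Fintype.card α := by
      rcases Nat.eq_zero_or_pos (Fintype.card α) with h | h
      · exfalso
        apply ha
        have := Fintype.card_eq_zero_iff.1 h
        ext k
        exact this.elim k
      · exact h
    obtain ⟨ξ, h0, h1, h2⟩ := h α β a ha hα hab A hA habs
    refine ⟨ξ, ?_, fun k => congrFun h1 k, h2⟩
    by_contra hne
    push Not at hne
    exact h0 (funext hne)

/-- exponent vectors -/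
noncomputable def ex {e : ℕ} (b : Fin 2 → Fin e) : Fin 2 →₀ ℕ :=
  Finsupp.equivFunOnFinite.symm (fun j => (b j : ℕ))

lemma ex_apply {e : ℕ} (b : Fin 2 → Fin e) (j : Fin 2) : ex b j = b j := rfl

lemma ex_inj {e : ℕ} {b b' : Fin 2 → Fin e} (h : ex b = ex b') : b = b' := by
  funext j
  have := DFunLike.congr_fun h j
  rw [ex_apply, ex_apply] at this
  exact Fin.ext this

section

variable {K : Type} [Field K] [NumberField K]

/-- the polynomial with given coefficients -/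
noncomputable def Fp {N : Type} {e : ℕ} (ξ : N × (Fin 2 → Fin (e + 1)) → 𝓞 K) (n : N) :
    MvPolynomial (Fin 2) (𝓞 K) := ∑ b, monomial (ex b) (ξ (n, b))

lemma coeff_Fp {N : Type} {e : ℕ} (ξ : N × (Fin 2 → Fin (e + 1)) → 𝓞 K) (n : N)
    (b : Fin 2 → Fin (e + 1)) : (Fp ξ n).coeff (ex b) = ξ (n, b) := by
  classical
  unfold Fp
  rw [coeff_sum, Finset.sum_eq_single b]
  · rw [coeff_monomial, if_pos rfl]
  · intro b' _ hb'
    rw [coeff_monomial, if_neg]
    intro h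
    exact hb' (ex_inj h)
  · intro h
    exact absurd (Finset.mem_univ _) h

lemma degreeOf_Fp {N : Type} {e : ℕ} (ξ : N × (Fin 2 → Fin (e + 1)) → 𝓞 K) (n : N) (j : Fin 2) :
    (Fp ξ n).degreeOf j ≤ e := by
  classical
  rw [degreeOf_le_iff]
  intro s hs
  have h1 : s ∈ Finset.biUnion Finset.univ
      (fun b : Fin 2 → Fin (e + 1) => (monomial (ex b) (ξ (n, b))).support) :=
    support_sum hs
  rw [Finset.mem_biUnion] at h1
  obtain ⟨b, _, hb⟩ := h1
  have h2 := support_monomial_subset hb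
  rw [Finset.mem_singleton] at h2
  rw [h2, ex_apply]
  exact Fin.is_le _

lemma len_Fp {N : Type} {e : ℕ} (ξ : N × (Fin 2 → Fin (e + 1)) → 𝓞 K) (n : N) (B : ℝ)
    (h : ∀ l, hs (ξ l) ≤ B) : len (Fp ξ n) ≤ (e + 1) ^ 2 * B := by
  classical
  refine (len_sum _ _).trans ?_
  refine (Finset.sum_le_sum (g := fun _ => B) (fun b _ => ?_)).trans (le_of_eq ?_)
  · rw [len_monomial]
    exact h _
  · simp

/-- the coefficient equations imply the polynomial equation -/
lemma sum_eq_zero_of {N : Type} [Fintype N] {e E : ℕ} (ξ : N × (Fin 2 → Fin (e + 1)) → 𝓞 K)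
    (P : N → MvPolynomial (Fin 2) (𝓞 K)) (p : N → Prop) [DecidablePred p]
    (hP : ∀ n j, (P n).degreeOf j ≤ E)
    (h : ∀ c : Fin 2 → Fin (e + E + 1), ∑ l : N × (Fin 2 → Fin (e + 1)),
      (if p l.1 then coeff (ex c) (monomial (ex l.2) 1 * P l.1) else 0) * ξ l = 0) :
    ∑ n : N, (if p n then Fp ξ n * P n else 0) = 0 := by
  classical
  have hdeg : ∀ j, (∑ n : N, (if p n then Fp ξ n * P n else 0)).degreeOf j ≤ e + E := by
    intro j
    refine (degreeOf_sum_le _ _ _).trans ?_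
    refine Finset.sup_le (fun n _ => ?_)
    split_ifs
    · exact (degreeOf_mul_le _ _ _).trans (Nat.add_le_add (degreeOf_Fp _ _ _) (hP _ _))
    · simp
  refine MvPolynomial.ext _ _ (fun s => ?_)
  rw [coeff_zero]
  by_cases hs' : ∀ j, s j ≤ e + E
  · have hc : s = ex (fun j => (⟨s j, Nat.lt_succ_of_le (hs' j)⟩ : Fin (e + E + 1))) := by
      ext j
      rfl
    have h1 := h (fun j => (⟨s j, Nat.lt_succ_of_le (hs' j)⟩ : Fin (e + E + 1)))
    rw [← hc] at h1
    rw [coeff_sum, ← h1, Fintype.sum_prod_type]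
    refine Finset.sum_congr rfl (fun n _ => ?_)
    by_cases hp : p n
    · simp only [hp, if_true]
      unfold Fp
      rw [Finset.sum_mul, coeff_sum]
      refine Finset.sum_congr rfl (fun b _ => ?_)
      have h2 : monomial (ex b) (ξ (n, b)) = C (ξ (n, b)) * monomial (ex b) (1 : 𝓞 K) := by
        rw [C_mul_monomial, mul_one]
      rw [h2, mul_assoc, coeff_C_mul, mul_comm]
    · simp only [hp, if_false, zero_mul, Finset.sum_const_zero, coeff_zero]
  · push Not at hs'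
    obtain ⟨j, hj⟩ := hs'
    by_contra hne
    have h1 := (degreeOf_le_iff.1 (hdeg j)) s (mem_support_iff.2 hne)
    omega

/-- Fubini: the block `i` and the other blocks -/
lemma GG_eq_zero_of (a b : Fin 2 → 𝓞 K) {m : ℕ} (D k : Fin m → ℕ)
    (F : NN D → MvPolynomial (Fin 2) (𝓞 K)) (r : Fin m → Fin 2 → Bool)
    (κ : Fin m → Fin 2 → ℕ × Bool) (i : Fin m)
    (h : ∀ n' : (i' : {i' // i' ≠ i}) → Fin 2 → Fin (D i'.1 + 1),
      ∑ n : NN D, (if (fun i' : {i' // i' ≠ i} => n i'.1) = n' then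
        F n * ∏ j, mm a b (r i j) j (k i) (D i) (n i j) (κ i j) else 0) = 0) :
    GG a b D k F r κ = 0 := by
  classical
  unfold GG
  have h1 : ∀ n : NN D, F n * ∏ i, ∏ j, mm a b (r i j) j (k i) (D i) (n i j) (κ i j) =
      ∑ n' : (i' : {i' // i' ≠ i}) → Fin 2 → Fin (D i'.1 + 1),
        (∏ i' : {i' // i' ≠ i}, ∏ j, mm a b (r i' j) j (k i') (D i') (n' i' j) (κ i' j)) *
        (if (fun i' : {i' // i' ≠ i} => n i'.1) = n' then
          F n * ∏ j, mm a b (r i j) j (k i) (D i) (n i j) (κ i j) else 0) := by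
    intro n
    rw [Finset.sum_eq_single (fun i' : {i' // i' ≠ i} => n i'.1)]
    · rw [if_pos rfl, Fintype.prod_eq_mul_prod_subtype_ne _ i]
      ring
    · intro n' _ hn'
      rw [if_neg (Ne.symm hn'), mul_zero]
    · intro h
      exact absurd (Finset.mem_univ _) h
  rw [Finset.sum_congr rfl (fun n _ => h1 n), Finset.sum_comm]
  refine Finset.sum_eq_zero (fun n' _ => ?_)
  rw [← Finset.mul_sum, h n', mul_zero]

end

/-- the index set of the equations -/
abbrev Eq {m : ℕ} (D T : Fin m → ℕ) (E : ℕ) : Type :=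
  Σ i : Fin m, (Fin 2 → Bool) × (Fin 2 → Fin (T i)) × (Fin 2 → Bool) ×
    ((i' : {i' // i' ≠ i}) → Fin 2 → Fin (D i'.1 + 1)) × (Fin 2 → Fin (E + 1))

lemma card_le {m : ℕ} (hm : 1 ≤ m) (D T : Fin m → ℕ) (d e : ℕ) (hd : 1 ≤ d) (he : e ≤ d)
    (hT : ∀ i, 512 * m * (T i) ^ 2 * d ^ 2 ≤ (e + 1) ^ 2 * D i ^ 2) :
    2 * Fintype.card (Eq D T (e + 2 * d)) ≤ Fintype.card (NN D × (Fin 2 → Fin (e + 1))) := by
  classical
  have h1 : ∀ i : Fin m, m * (2 * (4 * ((T i) ^ 2 * (4 * ((∏ i' : {i' // i' ≠ i},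
      (D i'.1 + 1) ^ 2) * (e + 2 * d + 1) ^ 2))))) ≤
      Fintype.card (NN D × (Fin 2 → Fin (e + 1))) := by
    intro i
    have h2 : Fintype.card (NN D × (Fin 2 → Fin (e + 1))) =
        (D i + 1) ^ 2 * (∏ i' : {i' // i' ≠ i}, (D i'.1 + 1) ^ 2) * (e + 1) ^ 2 := by
      have h3 : Fintype.card (NN D × (Fin 2 → Fin (e + 1))) =
          (∏ i, (D i + 1) ^ 2) * (e + 1) ^ 2 := by
        simp [NN, Fintype.card_pi]
      rw [h3, Fintype.prod_eq_mul_prod_subtype_ne (fun i => (D i + 1) ^ 2) i]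
    rw [h2]
    have h4 : (e + 2 * d + 1) ^ 2 ≤ 16 * d ^ 2 := by
      have : e + 2 * d + 1 ≤ 4 * d := by omega
      calc (e + 2 * d + 1) ^ 2 ≤ (4 * d) ^ 2 := Nat.pow_le_pow_left this 2
        _ = 16 * d ^ 2 := by ring
    have h5 : D i ^ 2 ≤ (D i + 1) ^ 2 := Nat.pow_le_pow_left (Nat.le_succ _) 2
    calc m * (2 * (4 * ((T i) ^ 2 * (4 * ((∏ i' : {i' // i' ≠ i},
          (D i'.1 + 1) ^ 2) * (e + 2 * d + 1) ^ 2)))))
        = (32 * m * (T i) ^ 2 * (e + 2 * d + 1) ^ 2) *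
            ∏ i' : {i' // i' ≠ i}, (D i'.1 + 1) ^ 2 := by ring
      _ ≤ (32 * m * (T i) ^ 2 * (16 * d ^ 2)) *
            ∏ i' : {i' // i' ≠ i}, (D i'.1 + 1) ^ 2 := by gcongr
      _ = (512 * m * (T i) ^ 2 * d ^ 2) * ∏ i' : {i' // i' ≠ i}, (D i'.1 + 1) ^ 2 := by ring
      _ ≤ ((e + 1) ^ 2 * D i ^ 2) * ∏ i' : {i' // i' ≠ i}, (D i'.1 + 1) ^ 2 :=
          Nat.mul_le_mul_right _ (hT i)
      _ ≤ ((e + 1) ^ 2 * (D i + 1) ^ 2) * ∏ i' : {i' // i' ≠ i}, (D i'.1 + 1) ^ 2 := by gcongr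
      _ = _ := by ring
  have h6 : Fintype.card (Eq D T (e + 2 * d)) = ∑ i : Fin m, (4 * ((T i) ^ 2 *
      (4 * ((∏ i' : {i' // i' ≠ i}, (D i'.1 + 1) ^ 2) * (e + 2 * d + 1) ^ 2)))) := by
    simp [Eq, Fintype.card_pi, Fintype.card_sigma]
  have h7 : m * (2 * Fintype.card (Eq D T (e + 2 * d))) ≤
      m * Fintype.card (NN D × (Fin 2 → Fin (e + 1))) := by
    rw [h6, Finset.mul_sum, Finset.mul_sum]
    refine (Finset.sum_le_sum (fun i _ => h1 i)).trans (le_of_eq ?_)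
    simp
  exact Nat.le_of_mul_le_mul_left h7 hm

theorem t_AUX (hM : S_MMF) : S_AUX := by
  classical
  intro K _ _ a b m hm
  obtain ⟨C, hC, hMM⟩ := hM K a b
  obtain ⟨c, hc, hS⟩ := siegel2 K
  refine ⟨2 ^ (2 * m + 4) * c ^ 2 * C ^ 2, ?_, ?_⟩
  · calc (1 : ℝ) = 1 * 1 * 1 := by ring
      _ ≤ 2 ^ (2 * m + 4) * c ^ 2 * C ^ 2 := by
        gcongr
        · exact one_le_pow₀ (by norm_num)
        · exact one_le_pow₀ hc
        · exact one_le_pow₀ hC
  intro D k T d e hd hD hk he hT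
  -- degrees and lengths of the block products
  have hkk : ∀ i, 4 ^ k i * D i = d := fun i => by rw [mul_comm, hk i]
  let P : ∀ (i : Fin m) (ρ : Fin 2 → Bool) (κ : Fin 2 → ℕ × Bool), NN D →
      MvPolynomial (Fin 2) (𝓞 K) := fun i ρ κ n =>
    ∏ j, mm a b (ρ j) j (k i) (D i) (n i j) (κ j)
  have hPdeg : ∀ i ρ κ n j, (P i ρ κ n).degreeOf j ≤ 2 * d := by
    intro i ρ κ n j
    have h1 : ∀ j' : Fin 2, (mm a b (ρ j') j' (k i) (D i) (n i j') (κ j')).degreeOf j ≤
        if j = j' then 2 * d else 0 := by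
      intro j'
      rw [degreeOf_le_iff]
      intro s hs
      have := (hMM (ρ j') j' (k i) (D i) (n i j') (κ j') (Fin.is_le _)).2.1 s hs j
      rw [hkk i] at this
      exact this
    have h2 := h1 0
    have h3 := h1 1
    simp only [P, Fin.prod_univ_two]
    refine (degreeOf_mul_le _ _ _).trans ?_
    fin_cases j
    · simp only [Fin.zero_eta, Fin.isValue, if_true, zero_ne_one, if_false] at h2 h3 ⊢
      omega
    · simp only [Fin.mk_one, Fin.isValue, if_true, one_ne_zero, if_false] at h2 h3 ⊢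
      omega
  have hPlen : ∀ i ρ κ n, len (P i ρ κ n) ≤ C ^ (2 * d) := by
    intro i ρ κ n
    have h1 : ∀ j' : Fin 2, len (mm a b (ρ j') j' (k i) (D i) (n i j') (κ j')) ≤ C ^ d := by
      intro j'
      have := (hMM (ρ j') j' (k i) (D i) (n i j') (κ j') (Fin.is_le _)).2.2
      rwa [hkk i] at this
    simp only [P, Fin.prod_univ_two]
    refine (len_mul _ _).trans ?_
    calc _ ≤ C ^ d * C ^ d := mul_le_mul (h1 0) (h1 1) (len_nonneg _) (by positivity)
      _ = C ^ (2 * d) := by ring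
  let A : Eq D T (e + 2 * d) → NN D × (Fin 2 → Fin (e + 1)) → 𝓞 K := fun t l =>
    if (fun i' : {i' // i' ≠ t.1} => l.1 i'.1) = t.2.2.2.2.1 then
      coeff (ex t.2.2.2.2.2) (monomial (ex l.2) 1 *
        P t.1 t.2.1 (fun j => (2 * D t.1 - t.2.2.1 j, t.2.2.2.1 j)) l.1) else 0
  have hCd : (1 : ℝ) ≤ C ^ (2 * d) := one_le_pow₀ hC
  have hA : ∀ t l, hs (A t l) ≤ C ^ (2 * d) := by
    intro t l
    simp only [A]
    split_ifs
    · refine (hs_le_len _ _).trans ((len_mul _ _).trans ?_)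
      rw [len_monomial, hs_one, one_mul]
      exact hPlen _ _ _ _
    · rw [hs_zero]
      linarith
  have hβ : 0 < Fintype.card (NN D × (Fin 2 → Fin (e + 1))) := Fintype.card_pos
  obtain ⟨ξ, ⟨l₀, hl₀⟩, hξ, hξB⟩ := hS (Eq D T (e + 2 * d)) (NN D × (Fin 2 → Fin (e + 1))) A hβ
    (card_le hm D T d e hd he hT) (C ^ (2 * d)) hCd hA
  refine ⟨Fp ξ, ?_, degreeOf_Fp ξ, ?_, ?_⟩
  · intro h0
    apply hl₀
    have h1 := coeff_Fp ξ l₀.1 l₀.2
    rw [h0] at h1
    simpa using h1.symm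
  · intro n
    refine (len_Fp ξ n _ hξB).trans ?_
    have h2d : ∀ x : ℕ, x ≤ d → ((x : ℝ) + 1) ≤ 2 ^ d := by
      intro x hx
      have h1 : x + 1 ≤ 2 ^ d := by
        have := Nat.lt_two_pow_self (n := d)
        omega
      exact_mod_cast h1
    have hcard : (Fintype.card (NN D × (Fin 2 → Fin (e + 1))) : ℝ) ≤ 2 ^ (d * (2 * m + 2)) := by
      have h3 : Fintype.card (NN D × (Fin 2 → Fin (e + 1))) =
          (∏ i, (D i + 1) ^ 2) * (e + 1) ^ 2 := by
        simp [NN, Fintype.card_pi]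
      rw [h3]
      push_cast
      have h4 : ∀ i, D i ≤ d := by
        intro i
        calc D i = D i * 1 := (mul_one _).symm
          _ ≤ D i * 4 ^ k i := Nat.mul_le_mul_left _ (Nat.one_le_pow _ _ (by norm_num))
          _ = d := hk i
      calc (∏ i, ((D i : ℝ) + 1) ^ 2) * ((e : ℝ) + 1) ^ 2 ≤
          (∏ _i : Fin m, ((2 : ℝ) ^ d) ^ 2) * ((2 : ℝ) ^ d) ^ 2 := by
            gcongr with i _
            · exact h2d _ (h4 i)
            · exact h2d _ he
        _ = 2 ^ (d * (2 * m + 2)) := by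
            rw [Finset.prod_const, Finset.card_univ, Fintype.card_fin]
            ring
    have h5 : c ^ 2 ≤ (c ^ 2) ^ d := by
      calc c ^ 2 = (c ^ 2) ^ 1 := (pow_one _).symm
        _ ≤ (c ^ 2) ^ d := pow_le_pow_right₀ (one_le_pow₀ hc) hd
    have hc0 : 0 ≤ c := by linarith
    have hC0 : 0 ≤ C := by linarith
    calc ((e : ℝ) + 1) ^ 2 * (c * (c * (Fintype.card (NN D × (Fin 2 → Fin (e + 1))) : ℝ) *
          C ^ (2 * d)))
        ≤ (2 ^ d) ^ 2 * (c * (c * 2 ^ (d * (2 * m + 2)) * C ^ (2 * d))) := by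
          gcongr
          exact h2d _ he
      _ = (2 ^ d) ^ 2 * 2 ^ (d * (2 * m + 2)) * c ^ 2 * C ^ (2 * d) := by ring
      _ ≤ (2 ^ d) ^ 2 * 2 ^ (d * (2 * m + 2)) * (c ^ 2) ^ d * C ^ (2 * d) := by gcongr
      _ = (2 ^ (2 * m + 4) * c ^ 2 * C ^ 2) ^ d := by
          have h6 : ((2 : ℝ) ^ d) ^ 2 * 2 ^ (d * (2 * m + 2)) = (2 ^ (2 * m + 4)) ^ d := by
            rw [← pow_mul, ← pow_mul, ← pow_add]
            congr 1
            ring
          have h7 : C ^ (2 * d) = (C ^ 2) ^ d := pow_mul C 2 d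
          rw [mul_pow, mul_pow, h6, h7]
  · intro r κ i hi
    apply GG_eq_zero_of a b D k (Fp ξ) r κ i
    intro n'
    by_cases hκ : (κ i 0).1 ≤ 2 * D i ∧ (κ i 1).1 ≤ 2 * D i
    · have hu : ∀ j, 2 * D i - (κ i j).1 < T i := by
        intro j
        fin_cases j
        · simp only [Fin.zero_eta, Fin.isValue]; omega
        · simp only [Fin.mk_one, Fin.isValue]; omega
      have hκ2 : ∀ j, (κ i j).1 ≤ 2 * D i := by
        intro j
        fin_cases j
        · exact hκ.1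
        · exact hκ.2
      have hκ' : (fun j => (2 * D i - (2 * D i - (κ i j).1), (κ i j).2)) = κ i := by
        funext j
        have := hκ2 j
        ext
        · simp only; omega
        · rfl
      have key := sum_eq_zero_of (E := 2 * d) ξ (P i (r i) (κ i))
        (fun n => (fun i' : {i' // i' ≠ i} => n i'.1) = n') (fun n j => hPdeg _ _ _ _ _) (by
          intro cc
          have h1 := hξ ⟨i, r i, fun j => ⟨2 * D i - (κ i j).1, hu j⟩, fun j => (κ i j).2, n', cc⟩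
          simp only [A] at h1
          rw [hκ'] at h1
          exact h1)
      exact key
    · refine Finset.sum_eq_zero (fun n _ => ?_)
      split_ifs
      · have h1 : ∃ j, 2 * D i < (κ i j).1 := by
          by_contra hne
          push Not at hne
          exact hκ ⟨hne 0, hne 1⟩
        obtain ⟨j, hj⟩ := h1
        rw [Finset.prod_eq_zero (Finset.mem_univ j), mul_zero]
        exact (hMM (r i j) j (k i) (D i) (n i j) (κ i j) (Fin.is_le _)).1 hj
      · rfl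

end Pool.Agent.J4H52.GC
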