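import Pool.Agent.J4H52.GC.Nvn2

/-!
# Project GC: the norm of the value is a nonzero polynomial in the `x`-coordinates
-/

set_option autoImplicit false

open MvPolynomial NumberField

namespace Pool.Agent.J4H52.GC

open Pool.Agent.J4H27.GC Pool.Agent.J4H67.GC

section

variable {K : Type} [Field K] [NumberField K] {m : ℕ}

/-- the inclusion of the base variables -/
def nz (m : ℕ) (j : Fin 2) : Ix m := (none, j)

lemma nz_inj (m : ℕ) : Function.Injective (nz m) := fun _ _ h => (Prod.ext_iff.1 h).2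

lemma len_rename {σ τ : Type} (f : σ → τ) (P : MvPolynomial σ (𝓞 K)) :
    len (rename f P) ≤ len P := by
  classical
  conv_lhs => rw [P.as_sum, map_sum]
  refine (len_sum _ _).trans ?_
  rw [len_def]
  refine Finset.sum_le_sum (fun s _ => ?_)
  rw [rename_monomial, len_monomial]

/-- the exponents of the variables `(some i, j)` -/
noncomputable def sx (κ : Fin m → Fin 2 → ℕ × Bool) : Ix m →₀ ℕ :=
  Finsupp.equivFunOnFinite.symm (fun s => s.1.elim 0 (fun i => (κ i s.2).1))

/-- the exponents of the square roots -/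
noncomputable def sb (κ : Fin m → Fin 2 → ℕ × Bool) : Fin m × Fin 2 →₀ ℕ :=
  Finsupp.equivFunOnFinite.symm (fun t => if (κ t.1 t.2).2 then 1 else 0)

variable (a b : Fin 2 → 𝓞 K) (D k : Fin m → ℕ)

/-- a term of the value -/
noncomputable def Tm (F : NN D → MvPolynomial (Fin 2) (𝓞 K)) (κ : Fin m → Fin 2 → ℕ × Bool) :
    MvPolynomial (Ix m) (𝓞 K) :=
  rename (nz m) (GG a b D k F (fun _ _ => true) κ) * monomial (sx κ) 1

/-- the value as a polynomial in the square roots -/
noncomputable def GP (F : NN D → MvPolynomial (Fin 2) (𝓞 K)) :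
    MvPolynomial (Fin m × Fin 2) (MvPolynomial (Ix m) (𝓞 K)) :=
  ∑ κ ∈ Kp D, monomial (sb κ) (Tm a b D k F κ)

omit [NumberField K] in
lemma degreeOf_monomial_le {σ : Type} (s : σ →₀ ℕ) (c : 𝓞 K) (v : σ) :
    (monomial s c).degreeOf v ≤ s v := by
  rw [degreeOf_le_iff]
  intro t ht
  have := support_monomial_subset ht
  rw [Finset.mem_singleton] at this
  rw [this]

lemma eval₂_Tm (F : NN D → MvPolynomial (Fin 2) (𝓞 K)) (κ : Fin m → Fin 2 → ℕ × Bool)
    {S : Type} [CommRing S] (g : 𝓞 K →+* S) (x : Ix m → S) :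
    (Tm a b D k F κ).eval₂ g x = (GG a b D k F (fun _ _ => true) κ).eval₂ g
      (fun j => x (none, j)) * ∏ i, ∏ j, x (some i, j) ^ (κ i j).1 := by
  unfold Tm
  rw [eval₂_mul, eval₂_rename, eval₂_monomial, map_one, one_mul,
    Finsupp.prod_fintype _ _ (fun _ => pow_zero _), Fintype.prod_prod_type, Fintype.prod_option]
  congr 1
  have h1 : ∀ j : Fin 2, sx κ (none, j) = 0 := fun _ => rfl
  have h2 : ∀ i (j : Fin 2), sx κ (some i, j) = (κ i j).1 := fun _ _ => rfl
  simp only [h1, h2, pow_zero, Finset.prod_const_one, one_mul]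

variable {a b D k}

lemma GG_degree {C : ℝ}
    (hMM : ∀ (r : Bool) (j : Fin 2) (k D n : ℕ) (κ : ℕ × Bool), n ≤ D →
      (2 * D < κ.1 → mm a b r j k D n κ = 0) ∧
      (∀ s ∈ (mm a b r j k D n κ).support, ∀ j', s j' ≤ if j' = j then 2 * (4 ^ k * D) else 0) ∧
      len (mm a b r j k D n κ) ≤ C ^ (4 ^ k * D))
    {d e : ℕ} (hk : ∀ i, D i * 4 ^ k i = d) (F : NN D → MvPolynomial (Fin 2) (𝓞 K))
    (hF : ∀ n j, (F n).degreeOf j ≤ e) (r : Fin m → Fin 2 → Bool)
    (κ : Fin m → Fin 2 → ℕ × Bool) (j' : Fin 2) :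
    (GG a b D k F r κ).degreeOf j' ≤ e + m * (2 * d) := by
  classical
  have hkk : ∀ i, 4 ^ k i * D i = d := fun i => by rw [mul_comm, hk i]
  unfold GG
  refine (degreeOf_sum_le _ _ _).trans (Finset.sup_le (fun n _ => ?_))
  refine (degreeOf_mul_le _ _ _).trans (Nat.add_le_add (hF n j') ?_)
  refine (degreeOf_prod_le _ _ _).trans ?_
  refine (Finset.sum_le_sum (g := fun _ => 2 * d) (fun i _ => ?_)).trans (le_of_eq (by simp))
  refine (degreeOf_prod_le _ _ _).trans ?_
  refine (Finset.sum_le_sum (g := fun j => if j' = j then 2 * d else 0) (fun j _ => ?_)).trans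
    (le_of_eq (by simp))
  rw [degreeOf_le_iff]
  intro s hs
  have := (hMM (r i j) j (k i) (D i) (n i j) (κ i j) (Fin.is_le _)).2.1 s hs j'
  rwa [hkk i] at this

lemma GG_len {C : ℝ} (hC : 1 ≤ C)
    (hMM : ∀ (r : Bool) (j : Fin 2) (k D n : ℕ) (κ : ℕ × Bool), n ≤ D →
      (2 * D < κ.1 → mm a b r j k D n κ = 0) ∧
      (∀ s ∈ (mm a b r j k D n κ).support, ∀ j', s j' ≤ if j' = j then 2 * (4 ^ k * D) else 0) ∧
      len (mm a b r j k D n κ) ≤ C ^ (4 ^ k * D))
    {d : ℕ} (hk : ∀ i, D i * 4 ^ k i = d) (F : NN D → MvPolynomial (Fin 2) (𝓞 K)) {Λ : ℝ}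
    (hF : ∀ n, len (F n) ≤ Λ) (hΛ : 0 ≤ Λ) (r : Fin m → Fin 2 → Bool)
    (κ : Fin m → Fin 2 → ℕ × Bool) :
    len (GG a b D k F r κ) ≤ Fintype.card (NN D) * (Λ * ((C ^ d) ^ 2) ^ m) := by
  classical
  have hkk : ∀ i, 4 ^ k i * D i = d := fun i => by rw [mul_comm, hk i]
  have hCd : 0 ≤ C ^ d := by positivity
  unfold GG
  refine (len_sum _ _).trans ?_
  refine (Finset.sum_le_sum (g := fun _ => Λ * ((C ^ d) ^ 2) ^ m) (fun n _ => ?_)).trans
    (le_of_eq (by rw [Finset.sum_const, Finset.card_univ, nsmul_eq_mul]))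
  refine (len_mul _ _).trans ?_
  refine mul_le_mul (hF n) ?_ (len_nonneg _) hΛ
  refine (len_prod _ _).trans ?_
  refine (Finset.prod_le_prod (g := fun _ => (C ^ d) ^ 2) (fun i _ => len_nonneg _)
    (fun i _ => ?_)).trans (le_of_eq (by simp))
  refine (len_prod _ _).trans ?_
  refine (Finset.prod_le_prod (g := fun _ => C ^ d) (fun j _ => len_nonneg _)
    (fun j _ => ?_)).trans (le_of_eq (by simp))
  have := (hMM (r i j) j (k i) (D i) (n i j) (κ i j) (Fin.is_le _)).2.2
  rwa [hkk i] at this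

end

theorem t_NVN (hN : S_NORM) (hG : S_GEN) (hM : S_MMF) (hV : S_VAL) : S_NVN := by
  classical
  intro K _ _ a b m hab
  obtain ⟨C, hC, hMM⟩ := hM K a b
  let f : Fin m × Fin 2 → MvPolynomial (Ix m) (𝓞 K) := fun t =>
    (X (some t.1, t.2) ^ 3 + MvPolynomial.C (a t.2) * X (some t.1, t.2) +
      MvPolynomial.C (b t.2)) *
    (X (none, t.2) ^ 3 + MvPolynomial.C (a t.2) * X (none, t.2) + MvPolynomial.C (b t.2))
  obtain ⟨c, hc, hNN⟩ := hN K (Ix m) (Fin m × Fin 2) f
  obtain ⟨B, hB⟩ := exists_nat_ge ((16 * C) ^ (2 * m))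
  have hB1 : 1 ≤ B := by
    have h1 : (1 : ℝ) ≤ (16 * C) ^ (2 * m) := one_le_pow₀ (by linarith)
    exact_mod_cast h1.trans hB
  refine ⟨c * (2 * m + 3) * B, by positivity, ?_⟩
  intro D k d e hd hD hk he F Λ hΛ hF hFd hFl
  have hDd : ∀ i, D i ≤ d := by
    intro i
    calc D i = D i * 1 := (mul_one _).symm
      _ ≤ D i * 4 ^ k i := Nat.mul_le_mul_left _ (Nat.one_le_pow _ _ (by norm_num))
      _ = d := hk i
  -- the bounds
  let δ : Ix m → ℕ := fun s => s.1.elim (e + m * (2 * d)) (fun i => 2 * D i)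
  have hδ : ∀ κ ∈ Kp D, ∀ v, (Tm a b D k F κ).degreeOf v ≤ δ v := by
    intro κ hκ v
    unfold Tm
    refine (degreeOf_mul_le _ _ _).trans ?_
    rcases v with ⟨_ | i, j⟩
    · have h1 := degreeOf_monomial_le (sx κ) (1 : 𝓞 K) ((none, j) : Ix m)
      have h2 : sx κ (none, j) = 0 := rfl
      have h3 : (rename (nz m) (GG a b D k F (fun _ _ => true) κ)).degreeOf ((none, j) : Ix m) ≤
          e + m * (2 * d) := by
        rw [show ((none, j) : Ix m) = nz m j from rfl, degreeOf_rename_of_injective (nz_inj m)]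
        exact GG_degree hMM hk F hFd _ κ j
      simp only [δ, Option.elim_none]
      omega
    · have h1 := degreeOf_monomial_le (sx κ) (1 : 𝓞 K) ((some i, j) : Ix m)
      have h2 : sx κ (some i, j) = (κ i j).1 := rfl
      have h3 : (rename (nz m) (GG a b D k F (fun _ _ => true) κ)).degreeOf ((some i, j) : Ix m) ≤
          0 := by
        rw [degreeOf_le_iff]
        intro s hs
        by_contra hne
        obtain ⟨u, hu, -⟩ := coeff_rename_ne_zero _ _ _ (mem_support_iff.1 hs)
        apply hne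
        rw [← hu, Finsupp.mapDomain_of_notMem_range]
        rintro ⟨j', hj'⟩
        simp [nz] at hj'
      have h4 : (κ i j).1 ≤ 2 * D i := by
        unfold Kp at hκ
        rw [Fintype.mem_piFinset] at hκ
        have h5 := hκ i
        rw [Fintype.mem_piFinset] at h5
        have h6 := h5 j
        rw [Finset.mem_product, Finset.mem_range] at h6
        omega
      simp only [δ, Option.elim_some]
      omega
  have hcardN : (Fintype.card (NN D) : ℝ) ≤ ((2 : ℝ) ^ d) ^ (2 * m) := by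
    have h3 : Fintype.card (NN D) = ∏ i, (D i + 1) ^ 2 := by
      simp [NN, Fintype.card_pi]
    rw [h3]
    push_cast
    calc (∏ i, ((D i : ℝ) + 1) ^ 2) ≤ ∏ _i : Fin m, ((2 : ℝ) ^ d) ^ 2 := by
          gcongr with i _
          have h1 : D i + 1 ≤ 2 ^ d := by
            have := Nat.lt_two_pow_self (n := d)
            have := hDd i
            omega
          exact_mod_cast h1
      _ = ((2 : ℝ) ^ d) ^ (2 * m) := by
          rw [Finset.prod_const, Finset.card_univ, Fintype.card_fin, ← pow_mul]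
  have hcardK : ((Kp D).card : ℝ) ≤ ((8 : ℝ) ^ d) ^ (2 * m) := by
    have h3 : (Kp D).card = ∏ i, ((2 * D i + 1) * 2) ^ 2 := by
      unfold Kp
      rw [Fintype.card_piFinset]
      refine Finset.prod_congr rfl (fun i _ => ?_)
      rw [Fintype.card_piFinset]
      simp
    rw [h3]
    push_cast
    calc (∏ i, ((2 * (D i : ℝ) + 1) * 2) ^ 2) ≤ ∏ _i : Fin m, ((8 : ℝ) ^ d) ^ 2 := by
          gcongr with i _
          have h1 : (2 * D i + 1) * 2 ≤ 8 ^ d := by
            have h4 := Nat.lt_two_pow_self (n := d)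
            have h5 := hDd i
            have h6 : 4 ≤ 4 ^ d := by
              calc 4 = 4 ^ 1 := by norm_num
                _ ≤ 4 ^ d := Nat.pow_le_pow_right (by norm_num) hd
            calc (2 * D i + 1) * 2 ≤ 2 ^ d * 4 := by omega
              _ ≤ 2 ^ d * 4 ^ d := Nat.mul_le_mul_left _ h6
              _ = 8 ^ d := by rw [← mul_pow]; norm_num
          exact_mod_cast h1
      _ = ((8 : ℝ) ^ d) ^ (2 * m) := by
          rw [Finset.prod_const, Finset.card_univ, Fintype.card_fin, ← pow_mul]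
  have hBd : (1 : ℝ) ≤ (B : ℝ) ^ d := one_le_pow₀ (by exact_mod_cast hB1)
  have hlenT : ∀ κ, len (Tm a b D k F κ) ≤
      ((2 : ℝ) ^ d) ^ (2 * m) * (Λ * ((C ^ d) ^ 2) ^ m) := by
    intro κ
    unfold Tm
    refine (len_mul _ _).trans ?_
    rw [len_monomial, hs_one, mul_one]
    refine (len_rename _ _).trans ((GG_len hC hMM hk F hFl (by linarith) _ κ).trans ?_)
    have h0 : 0 ≤ C := by linarith
    gcongr
  have hcoeff : ∀ s, coeff s (GP a b D k F) =
      ∑ κ ∈ Kp D, if sb κ = s then Tm a b D k F κ else 0 := by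
    intro s
    unfold GP
    rw [coeff_sum]
    refine Finset.sum_congr rfl (fun κ _ => ?_)
    rw [coeff_monomial]
  obtain ⟨P, hP1, hP2, hP3⟩ := hNN (GP a b D k F) δ ((B : ℝ) ^ d * Λ)
    (by nlinarith) (by
      intro s hs t
      rw [mem_support_iff, hcoeff] at hs
      obtain ⟨κ, _, hκ⟩ := Finset.exists_ne_zero_of_sum_ne_zero hs
      have h1 : sb κ = s := by
        by_contra hne
        rw [if_neg hne] at hκ
        exact hκ rfl
      rw [← h1]
      have h2 : sb κ t = if (κ t.1 t.2).2 then 1 else 0 := rfl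
      rw [h2]
      split_ifs <;> omega) (by
      intro s v
      rw [hcoeff]
      refine (degreeOf_sum_le _ _ _).trans (Finset.sup_le (fun κ hκ => ?_))
      split_ifs
      · exact hδ κ hκ v
      · simp) (by
      intro s
      rw [hcoeff]
      refine (len_sum _ _).trans ?_
      refine (Finset.sum_le_sum (g := fun _ => ((2 : ℝ) ^ d) ^ (2 * m) *
        (Λ * ((C ^ d) ^ 2) ^ m)) (fun κ _ => ?_)).trans ?_
      · split_ifs
        · exact hlenT κ
        · rw [len_zero]
          have h0 : 0 ≤ C := by linarith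
          have h1 : 0 ≤ Λ := by linarith
          positivity
      · rw [Finset.sum_const, nsmul_eq_mul]
        have h0 : 0 ≤ C := by linarith
        have h1 : 0 ≤ Λ := by linarith
        calc ((Kp D).card : ℝ) * (((2 : ℝ) ^ d) ^ (2 * m) * (Λ * ((C ^ d) ^ 2) ^ m))
            ≤ ((8 : ℝ) ^ d) ^ (2 * m) * (((2 : ℝ) ^ d) ^ (2 * m) * (Λ * ((C ^ d) ^ 2) ^ m)) := by
              gcongr
          _ = ((16 * C) ^ (2 * m)) ^ d * Λ := by
              have e1 : ((8 : ℝ) ^ d) ^ (2 * m) = (8 ^ (2 * m)) ^ d := by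
                rw [← pow_mul, ← pow_mul, mul_comm]
              have e2 : ((2 : ℝ) ^ d) ^ (2 * m) = (2 ^ (2 * m)) ^ d := by
                rw [← pow_mul, ← pow_mul, mul_comm]
              have e3 : ((C ^ d) ^ 2) ^ m = (C ^ (2 * m)) ^ d := by
                rw [← pow_mul, ← pow_mul, ← pow_mul]
                congr 1
                ring
              have e4 : ((16 : ℝ) * C) ^ (2 * m) = 8 ^ (2 * m) * 2 ^ (2 * m) * C ^ (2 * m) := by
                rw [← mul_pow, ← mul_pow]
                norm_num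
              rw [e1, e2, e3, e4, mul_pow, mul_pow]
              ring
          _ ≤ (B : ℝ) ^ d * Λ := by gcongr)
  have hid : ∀ (S : Type) [CommRing S] (g : 𝓞 K →+* S) (x h : Ix m → S), OnE a b g x h →
      P.eval₂ g x = ∏ ε : Fin m → Fin 2 → Bool, Val a b D k g x (sg h ε) (fun _ _ => true) F := by
    intro S _ g x h hOn
    have h1 := hP3 S (eval₂Hom g x) (fun t => h (some t.1, t.2) * h (none, t.2)) (by
      intro t
      simp only [f, coe_eval₂Hom, eval₂_mul, eval₂_add, eval₂_pow, eval₂_X, eval₂_C]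
      have e1 := hOn (some t.1, t.2)
      have e2 := hOn (none, t.2)
      simp only at e1 e2
      rw [mul_pow, e1, e2])
    rw [coe_eval₂Hom] at h1
    rw [h1]
    refine Fintype.prod_equiv (Equiv.curry (Fin m) (Fin 2) Bool) _ _ (fun ε => ?_)
    have hOn' : OnE a b g x (sg h (Function.curry ε)) := by
      rintro ⟨_ | i, j⟩
      · exact hOn (none, j)
      · have := hOn (some i, j)
        simp only [sg]
        split_ifs
        · exact this
        · rw [neg_sq]
          exact this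
    have h2 := hV K a b m D k S g x (sg h (Function.curry ε)) hOn' (fun _ _ => true) F
    rw [show (Equiv.curry (Fin m) (Fin 2) Bool) ε = Function.curry ε from rfl, h2]
    unfold GP
    rw [eval₂_sum]
    refine Finset.sum_congr rfl (fun κ _ => ?_)
    rw [eval₂_monomial, coe_eval₂Hom, eval₂_Tm, Finsupp.prod_fintype _ _ (fun _ => pow_zero _),
      Fintype.prod_prod_type, mul_assoc]
    congr 1
    rw [← Finset.prod_mul_distrib]
    refine Finset.prod_congr rfl (fun i _ => ?_)
    rw [← Finset.prod_mul_distrib]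
    refine Finset.prod_congr rfl (fun j _ => ?_)
    congr 1
    have h3 : sb κ (i, j) = if (κ i j).2 then 1 else 0 := rfl
    rw [h3]
    have h4 : sg h (Function.curry ε) (none, j) = h (none, j) := rfl
    have h5 : sg h (Function.curry ε) (some i, j) =
      if ε (i, j) then h (some i, j) else -h (some i, j) := rfl
    rw [h4, h5]
    cases hε : ε (i, j) <;> cases hκ : (κ i j).2 <;> simp
  refine ⟨P, ?_, ?_, ?_, ?_, ?_⟩
  · intro hP0
    obtain ⟨Ω, _, g, x, h, hOn, hne⟩ := exists_point a b D k hG F hF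
    have h1 := hid Ω g x h hOn
    rw [hP0, eval₂_zero] at h1
    exact Finset.prod_ne_zero_iff.2 (fun ε _ => hne ε) h1.symm
  · intro j
    refine (hP1 (none, j)).trans ?_
    simp only [δ, Option.elim_none]
    calc c * (e + m * (2 * d) + 1) ≤ c * ((2 * m + 3) * d) := by
          refine Nat.mul_le_mul_left _ ?_
          nlinarith
      _ = c * (2 * m + 3) * 1 * d := by ring
      _ ≤ c * (2 * m + 3) * B * d := by gcongr
  · intro i j
    refine (hP1 (some i, j)).trans ?_
    simp only [δ, Option.elim_some]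
    have := hD i
    calc c * (2 * D i + 1) ≤ c * ((2 * m + 3) * D i) := by
          refine Nat.mul_le_mul_left _ ?_
          nlinarith
      _ = c * (2 * m + 3) * 1 * D i := by ring
      _ ≤ c * (2 * m + 3) * B * D i := by gcongr
  · refine hP2.trans ?_
    have h1 : (1 : ℝ) ≤ c := by exact_mod_cast hc
    have h2 : c * B ≤ c * (2 * m + 3) * B := by
      calc c * B = c * 1 * B := by ring
        _ ≤ c * (2 * m + 3) * B := by gcongr; omega
    have h3 : ((c : ℝ) * ((B : ℝ) ^ d * Λ)) ≤ (((c * (2 * m + 3) * B : ℕ) : ℝ) ^ d * Λ) := by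
      calc (c : ℝ) * ((B : ℝ) ^ d * Λ) = (c : ℝ) ^ 1 * (B : ℝ) ^ d * Λ := by ring
        _ ≤ (c : ℝ) ^ d * (B : ℝ) ^ d * Λ := by gcongr
        _ = ((c * B : ℕ) : ℝ) ^ d * Λ := by push_cast; rw [mul_pow]
        _ ≤ (((c * (2 * m + 3) * B : ℕ) : ℝ) ^ d * Λ) := by gcongr
    have h4 : c ≤ c * (2 * m + 3) * B := by
      calc c = c * 1 * 1 := by ring
        _ ≤ c * (2 * m + 3) * B := by gcongr; omega
    have h5 : (1 : ℝ) ≤ (((c * (2 * m + 3) * B : ℕ) : ℝ) ^ d * Λ) := by
      have h6 : (1 : ℝ) ≤ ((c * (2 * m + 3) * B : ℕ) : ℝ) := by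
        exact_mod_cast (show 1 ≤ c * (2 * m + 3) * B from le_trans hc h4)
      calc (1 : ℝ) = 1 * 1 := by ring
        _ ≤ ((c * (2 * m + 3) * B : ℕ) : ℝ) ^ d * Λ := by
          gcongr
          exact one_le_pow₀ h6
    calc ((c : ℝ) * ((B : ℝ) ^ d * Λ)) ^ c ≤ (((c * (2 * m + 3) * B : ℕ) : ℝ) ^ d * Λ) ^ c := by
          gcongr
      _ ≤ (((c * (2 * m + 3) * B : ℕ) : ℝ) ^ d * Λ) ^ (c * (2 * m + 3) * B) :=
          pow_le_pow_right₀ h5 h4
  · intro S _ g x h hOn
    rw [hid S g x h hOn]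
    refine Finset.prod_congr rfl (fun ε _ => ?_)
    congr 1

end Pool.Agent.J4H52.GC
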