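import Pool.Agent.J4H47.GC.Def3

set_option autoImplicit false

/-! Piece AM2 (statement of helper47): the inequality of the means with a defect. -/

namespace Pool.Agent.J4H52.GC

open Finset Pool.Agent.J4H47.GC

theorem t_AM2 : S_AM2 := by
  rintro d m u hu ⟨a, b, hab, hb, ha0, hb0⟩
  obtain ⟨M, hM⟩ : ∃ M, M = ∑ j ∈ range (2 * d + 1), (m j : ℝ) := ⟨_, rfl⟩
  obtain ⟨S, hS⟩ : ∃ S, S = ∑ j ∈ range (2 * d + 1), ((j : ℝ) * (m j : ℝ)) := ⟨_, rfl⟩
  rw [← hM, ← hS]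
  have har : a ∈ range (2 * d + 1) := mem_range.2 (by omega)
  have hbr : b ∈ range (2 * d + 1) := mem_range.2 (by omega)
  have ha1 : (1 : ℝ) ≤ m a := by exact_mod_cast Nat.one_le_iff_ne_zero.2 ha0
  have hb1 : (1 : ℝ) ≤ m b := by exact_mod_cast Nat.one_le_iff_ne_zero.2 hb0
  have hMpos : 0 < M := by
    rw [hM]
    refine lt_of_lt_of_le (by linarith : (0 : ℝ) < m a) ?_
    exact Finset.single_le_sum (f := fun j => (m j : ℝ)) (fun i _ => by positivity) har
  obtain ⟨c, hc⟩ : ∃ c, c = S / M := ⟨_, rfl⟩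
  rw [← hc]
  have hcM : c * M = S := by rw [hc]; field_simp
  -- the tangent
  obtain ⟨L, hL⟩ : ∃ L : ℝ → ℝ, ∀ x, L x = u ^ c * (1 + (x - c) * Real.log u) := ⟨_, fun _ => rfl⟩
  have huc : 0 < u ^ c := Real.rpow_pos_of_pos hu c
  have tan : ∀ x : ℝ, L x ≤ u ^ x := by
    intro x
    have h1 : u ^ x = u ^ c * u ^ (x - c) := by
      rw [← Real.rpow_add hu]
      congr 1
      ring
    rw [hL, h1]
    refine mul_le_mul_of_nonneg_left ?_ huc.le
    rw [Real.rpow_def_of_pos hu]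
    have := Real.add_one_le_exp (Real.log u * (x - c))
    linarith
  have tanN : ∀ j : ℕ, L (j : ℝ) ≤ u ^ j := by
    intro j
    have := tan (j : ℝ)
    rwa [Real.rpow_natCast] at this
  -- the sum of the tangents
  have hsum : ∑ j ∈ range (2 * d + 1), (m j : ℝ) * L (j : ℝ) = M * u ^ c := by
    have h1 : ∀ j ∈ range (2 * d + 1), (m j : ℝ) * L (j : ℝ) =
        u ^ c * (1 - c * Real.log u) * (m j : ℝ) + u ^ c * Real.log u * ((j : ℝ) * (m j : ℝ)) := by
      intro j _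
      rw [hL]
      ring
    rw [Finset.sum_congr rfl h1, Finset.sum_add_distrib, ← Finset.mul_sum, ← Finset.mul_sum, ← hM,
      ← hS, ← hcM]
    ring
  -- the two terms
  have h2 : (u ^ a - L (a : ℝ)) + (u ^ b - L (b : ℝ)) ≤
      ∑ j ∈ range (2 * d + 1), (m j : ℝ) * (u ^ j - L (j : ℝ)) := by
    have hnn : ∀ i ∈ range (2 * d + 1), 0 ≤ (m i : ℝ) * (u ^ i - L (i : ℝ)) := fun i _ =>
      mul_nonneg (by positivity) (sub_nonneg.2 (tanN i))
    have h3 := Finset.add_le_sum hnn har hbr (by omega)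
    refine le_trans (add_le_add ?_ ?_) h3
    · exact le_mul_of_one_le_left (sub_nonneg.2 (tanN a)) ha1
    · exact le_mul_of_one_le_left (sub_nonneg.2 (tanN b)) hb1
  have h3 : ∑ j ∈ range (2 * d + 1), (m j : ℝ) * (u ^ j - L (j : ℝ)) =
      (∑ j ∈ range (2 * d + 1), (m j : ℝ) * u ^ j) - M * u ^ c := by
    rw [← hsum, ← Finset.sum_sub_distrib]
    exact Finset.sum_congr rfl fun j _ => by ring
  -- the defect
  obtain ⟨s, hs⟩ : ∃ s : ℝ, s = ((b : ℝ) - a) / 2 := ⟨_, rfl⟩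
  have hs1 : 1 ≤ s := by
    have : (a : ℝ) + 2 ≤ b := by exact_mod_cast hab
    rw [hs]
    linarith
  have h4 : 2 * L (((a : ℝ) + b) / 2) = L a + L b := by
    rw [hL, hL, hL]
    ring
  have h5 := tan (((a : ℝ) + b) / 2)
  have e1 : u ^ (((a : ℝ) + b) / 2) = u ^ a * u ^ s := by
    rw [← Real.rpow_natCast u a, ← Real.rpow_add hu, hs]
    congr 1
    ring
  have e2 : u ^ b = u ^ a * (u ^ s * u ^ s) := by
    rw [← Real.rpow_natCast u a, ← Real.rpow_natCast u b, ← Real.rpow_add hu, ← Real.rpow_add hu, hs]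
    congr 1
    ring
  have h6 : u ^ a * (u ^ s - 1) ^ 2 ≤ (u ^ a - L (a : ℝ)) + (u ^ b - L (b : ℝ)) := by
    have : (u ^ a - L (a : ℝ)) + (u ^ b - L (b : ℝ)) =
        u ^ a * (u ^ s - 1) ^ 2 + 2 * (u ^ (((a : ℝ) + b) / 2) - L (((a : ℝ) + b) / 2)) := by
      rw [e1, e2]
      linear_combination h4
    rw [this]
    linarith
  have h7 : min 1 (u ^ (2 * d - 2)) ≤ u ^ a := by
    rcases le_total 1 u with h | h
    · exact (min_le_left _ _).trans (one_le_pow₀ h)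
    · exact (min_le_right _ _).trans (pow_le_pow_of_le_one hu.le h (by omega))
  have h8 : (u - 1) ^ 2 ≤ (u ^ s - 1) ^ 2 := by
    rcases le_total 1 u with h | h
    · have h9 : u ^ (1 : ℝ) ≤ u ^ s := Real.rpow_le_rpow_of_exponent_le h hs1
      rw [Real.rpow_one] at h9
      exact pow_le_pow_left₀ (by linarith) (by linarith) 2
    · have h9 : u ^ s ≤ u ^ (1 : ℝ) := Real.rpow_le_rpow_of_exponent_ge hu h hs1
      rw [Real.rpow_one] at h9
      nlinarith
  have h9 : min 1 (u ^ (2 * d - 2)) * (u - 1) ^ 2 ≤ u ^ a * (u ^ s - 1) ^ 2 :=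
    mul_le_mul h7 h8 (sq_nonneg _) (by positivity)
  linarith

end Pool.Agent.J4H52.GC
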