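import Pool.Agent.J4H67.GC.Row

/-!
# Project GC: nonvanishing (first part: a point where the values for all signs are not zero)
-/

set_option autoImplicit false

open MvPolynomial NumberField

namespace Pool.Agent.J4H52.GC

open Pool.Agent.J4H27.GC

section poly

open Polynomial

variable {R : Type} [CommRing R]

lemma nd_le (c : R) (p q : R[X]) (i j : ℕ) :
    (Polynomial.C c * p ^ i * q ^ j).natDegree ≤ i * p.natDegree + j * q.natDegree :=
  natDegree_mul_le.trans (add_le_add ((natDegree_C_mul_le _ _).trans natDegree_pow_le)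
    natDegree_pow_le)

lemma cube_monic (a b : R) (p q : R[X]) (hp : p.Monic) (h : q.natDegree < p.natDegree) :
    (p ^ 3 + (Polynomial.C a * p ^ 1 * q ^ 2 + Polynomial.C b * p ^ 0 * q ^ 3)).Monic ∧
    (p ^ 3 + (Polynomial.C a * p ^ 1 * q ^ 2 + Polynomial.C b * p ^ 0 * q ^ 3)).natDegree =
      3 * p.natDegree := by
  have h3 : (p ^ 3).natDegree = 3 * p.natDegree := hp.natDegree_pow 3
  have h1 : (Polynomial.C a * p ^ 1 * q ^ 2 + Polynomial.C b * p ^ 0 * q ^ 3).natDegree <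
      (p ^ 3).natDegree := by
    rw [h3]
    refine lt_of_le_of_lt (natDegree_add_le _ _) (max_lt ?_ ?_)
    · exact lt_of_le_of_lt (nd_le _ _ _ _ _) (by omega)
    · exact lt_of_le_of_lt (nd_le _ _ _ _ _) (by omega)
  exact ⟨(hp.pow 3).add_of_left (Polynomial.degree_lt_degree h1),
    (natDegree_add_eq_left_of_natDegree_lt h1).trans h3⟩

lemma fourth_monic (a b c : R) (p q : R[X]) (hp : p.Monic) (h : q.natDegree < p.natDegree) :
    (p ^ 4 + (Polynomial.C a * p ^ 2 * q ^ 2 + (Polynomial.C b * p ^ 1 * q ^ 3 +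
      Polynomial.C c * p ^ 0 * q ^ 4))).Monic ∧
    (p ^ 4 + (Polynomial.C a * p ^ 2 * q ^ 2 + (Polynomial.C b * p ^ 1 * q ^ 3 +
      Polynomial.C c * p ^ 0 * q ^ 4))).natDegree = 4 * p.natDegree := by
  have h3 : (p ^ 4).natDegree = 4 * p.natDegree := hp.natDegree_pow 4
  have h1 : (Polynomial.C a * p ^ 2 * q ^ 2 + (Polynomial.C b * p ^ 1 * q ^ 3 +
      Polynomial.C c * p ^ 0 * q ^ 4)).natDegree < (p ^ 4).natDegree := by
    rw [h3]
    refine lt_of_le_of_lt (natDegree_add_le _ _) (max_lt ?_ (lt_of_le_of_lt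
      (natDegree_add_le _ _) (max_lt ?_ ?_)))
    · exact lt_of_le_of_lt (nd_le _ _ _ _ _) (by omega)
    · exact lt_of_le_of_lt (nd_le _ _ _ _ _) (by omega)
    · exact lt_of_le_of_lt (nd_le _ _ _ _ _) (by omega)
  exact ⟨(hp.pow 4).add_of_left (Polynomial.degree_lt_degree h1),
    (natDegree_add_eq_left_of_natDegree_lt h1).trans h3⟩

lemma dp_deg [IsDomain R] [CharZero R] (a b : R) (k : ℕ) :
    (phi a b k).Monic ∧ psi a b k ≠ 0 ∧ (psi a b k).natDegree < (phi a b k).natDegree := by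
  induction k with
  | zero =>
    have h1 : phi a b 0 = Polynomial.X := rfl
    have h2 : psi a b 0 = 1 := rfl
    rw [h1, h2]
    refine ⟨monic_X, one_ne_zero, ?_⟩
    rw [natDegree_X, natDegree_one]
    exact Nat.one_pos
  | succ k ih =>
    obtain ⟨ih1, ih2, ih3⟩ := ih
    have h1 : phi a b (k + 1) = phi a b k ^ 4 + (Polynomial.C (-2 * a) * phi a b k ^ 2 *
        psi a b k ^ 2 + (Polynomial.C (-8 * b) * phi a b k ^ 1 * psi a b k ^ 3 +
        Polynomial.C (a ^ 2) * phi a b k ^ 0 * psi a b k ^ 4)) := by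
      have h : phi a b (k + 1) = phi a b k ^ 4 - 2 * Polynomial.C a * phi a b k ^ 2 *
        psi a b k ^ 2 - 8 * Polynomial.C b * phi a b k * psi a b k ^ 3 +
        Polynomial.C a ^ 2 * psi a b k ^ 4 := rfl
      rw [h]
      simp only [map_mul, map_neg, map_pow, map_ofNat]
      ring
    have h2 : psi a b (k + 1) = 4 * psi a b k * (phi a b k ^ 3 +
        (Polynomial.C a * phi a b k ^ 1 * psi a b k ^ 2 +
          Polynomial.C b * phi a b k ^ 0 * psi a b k ^ 3)) := by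
      have h : psi a b (k + 1) = 4 * psi a b k * (phi a b k ^ 3 +
        Polynomial.C a * phi a b k * psi a b k ^ 2 + Polynomial.C b * psi a b k ^ 3) := rfl
      rw [h]
      ring
    obtain ⟨m1, d1⟩ := fourth_monic (-2 * a) (-8 * b) (a ^ 2) _ _ ih1 ih3
    obtain ⟨m2, d2⟩ := cube_monic a b _ _ ih1 ih3
    rw [h1, h2]
    have h4 : (4 : R[X]) ≠ 0 := by
      have : (4 : R[X]) = Polynomial.C (4 : R) := by rw [map_ofNat]
      rw [this, Ne, Polynomial.C_eq_zero]
      norm_num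
    refine ⟨m1, mul_ne_zero (mul_ne_zero h4 ih2) m2.ne_zero, ?_⟩
    rw [d1]
    refine lt_of_le_of_lt natDegree_mul_le ?_
    rw [d2]
    have h5 : (4 * psi a b k).natDegree ≤ (psi a b k).natDegree := by
      have : (4 : R[X]) = Polynomial.C (4 : R) := by rw [map_ofNat]
      rw [this]
      exact natDegree_C_mul_le _ _
    omega

end poly

section avoid

variable {Ω : Type} [Field Ω] [IsAlgClosed Ω] [CharZero Ω]

/-- the polynomial in `x` whose zeros are the points with value `V` -/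
noncomputable def RV (A B p q V : Ω) : Polynomial Ω :=
  Polynomial.C ((q * V - p) ^ 2) * Polynomial.X ^ 2 +
  Polynomial.C (-2 * p * q * V ^ 2 - 2 * (p ^ 2 + A * q ^ 2) * V - 2 * A * p * q -
    4 * B * q ^ 2) * Polynomial.X +
  Polynomial.C (p ^ 2 * V ^ 2 - 2 * (A * p * q + 2 * B * q ^ 2) * V + A ^ 2 * q ^ 2 -
    4 * B * p * q)

omit [IsAlgClosed Ω] [CharZero Ω] in
lemma RV_eval (A B p q V x : Ω) : (RV A B p q V).eval x =
    (x * q - p) ^ 2 * V ^ 2 - 2 * ((x * q + p) * (x * p + A * q) + 2 * B * q ^ 2) * V +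
      ((x * p - A * q) ^ 2 - 4 * B * q * (x * q + p)) := by
  unfold RV
  simp only [Polynomial.eval_add, Polynomial.eval_mul, Polynomial.eval_pow, Polynomial.eval_C,
    Polynomial.eval_X]
  ring

omit [IsAlgClosed Ω] [CharZero Ω] in
lemma quad_zero (u v w : Ω) (h : Polynomial.C u * Polynomial.X ^ 2 +
    Polynomial.C v * Polynomial.X + Polynomial.C w = 0) : u = 0 ∧ v = 0 := by
  have h2 := congrArg (fun P => Polynomial.coeff P 2) h
  have h1 := congrArg (fun P => Polynomial.coeff P 1) h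
  simp [Polynomial.coeff_C, Polynomial.coeff_X_pow] at h1 h2
  exact ⟨h2, h1⟩

lemma RV_ne (A B p q V o c : Ω) (hq : q ≠ 0) (ho : o ≠ 0) (hc : c ≠ 0)
    (hoq : o ^ 2 * c = q * (p ^ 3 + A * p * q ^ 2 + B * q ^ 3)) : RV A B p q V ≠ 0 := by
  intro h0
  obtain ⟨h2, h1⟩ := quad_zero _ _ _ h0
  have h3 : q * V = p := by
    have := pow_eq_zero_iff (two_ne_zero) |>.1 h2
    linear_combination this
  have h4 : (4 : Ω) * (q * (o ^ 2 * c)) = 0 := by
    rw [hoq]
    subst h3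
    linear_combination (-q ^ 3) * h1
  have h5 : (4 : Ω) * (q * (o ^ 2 * c)) ≠ 0 :=
    mul_ne_zero (by norm_num) (mul_ne_zero hq (mul_ne_zero (pow_ne_zero 2 ho) hc))
  exact h5 h4

/-- the set of the pairs of values -/
def Sp (A B h0 p q o : Ω) : Set (Ω × Ω) := {v | ∃ x h : Ω, h ^ 2 = x ^ 3 + A * x + B ∧
  (x * q - p) ^ 2 ≠ 0 ∧
  (x * q + p) * (x * p + A * q) + 2 * B * q ^ 2 + 2 * h * h0 * o = v.1 * (x * q - p) ^ 2 ∧
  (x * q + p) * (x * p + A * q) + 2 * B * q ^ 2 - 2 * h * h0 * o = v.2 * (x * q - p) ^ 2}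

lemma avoid (A B x0 h0 p q o : Ω) (hq : q ≠ 0) (ho : o ≠ 0)
    (hh0 : h0 ^ 2 = x0 ^ 3 + A * x0 + B) (hne : x0 ^ 3 + A * x0 + B ≠ 0)
    (hoq : o ^ 2 * (x0 ^ 3 + A * x0 + B) = q * (p ^ 3 + A * p * q ^ 2 + B * q ^ 3))
    (Z : Set Ω) (hZ : Z.Finite) : ∃ v ∈ Sp A B h0 p q o, v.1 ∉ Z ∧ v.2 ∉ Z := by
  classical
  have hfin : ({x : Ω | x * q - p = 0} ∪ ⋃ V ∈ Z, {x : Ω | (RV A B p q V).eval x = 0}).Finite := by
    refine Set.Finite.union ?_ (hZ.biUnion (fun V _ => ?_))
    · refine (Set.finite_singleton (p / q)).subset (fun x hx => ?_)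
      rw [Set.mem_ofPred_eq] at hx
      rw [Set.mem_singleton_iff, eq_div_iff hq]
      linear_combination hx
    · refine ((RV A B p q V).roots.toFinset.finite_toSet).subset (fun x hx => ?_)
      rw [Finset.mem_coe, Multiset.mem_toFinset, Polynomial.mem_roots
        (RV_ne A B p q V o _ hq ho hne hoq)]
      exact hx
  have : Infinite Ω := inferInstance
  obtain ⟨x, hx⟩ := hfin.exists_notMem
  simp only [Set.mem_union, Set.mem_iUnion, Set.mem_ofPred_eq, not_or, not_exists] at hx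
  obtain ⟨hx1, hx2⟩ := hx
  obtain ⟨h, hh⟩ := IsAlgClosed.exists_pow_nat_eq (x ^ 3 + A * x + B) (n := 2) (by norm_num)
  have hA : (x * q - p) ^ 2 ≠ 0 := pow_ne_zero 2 hx1
  have hid := Pool.Agent.J4H67.GC.row_id A B x h x0 h0 p q o hh hh0 hoq
  refine ⟨(((x * q + p) * (x * p + A * q) + 2 * B * q ^ 2 + 2 * h * h0 * o) / (x * q - p) ^ 2,
    ((x * q + p) * (x * p + A * q) + 2 * B * q ^ 2 - 2 * h * h0 * o) / (x * q - p) ^ 2),
    ⟨x, h, hh, hA, ?_, ?_⟩, ?_, ?_⟩
  · rw [div_mul_cancel₀ _ hA]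
  · rw [div_mul_cancel₀ _ hA]
  · intro hV
    apply hx2 _ hV
    rw [RV_eval]
    apply mul_left_cancel₀ hA
    simp only
    field_simp
    linear_combination (-1) * (x * q - p) ^ 0 * hid
  · intro hV
    apply hx2 _ hV
    rw [RV_eval]
    apply mul_left_cancel₀ hA
    simp only
    field_simp
    linear_combination (-1) * (x * q - p) ^ 0 * hid

end avoid

end Pool.Agent.J4H52.GC
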