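import Pool.Agent.J4H52.GC.Nvn1

/-!
# Project GC: nonvanishing (second part: a point where the values for all signs are not zero)
-/

set_option autoImplicit false

open MvPolynomial NumberField

namespace Pool.Agent.J4H52.GC

open Pool.Agent.J4H27.GC Pool.Agent.J4H67.GC

/-- change of the signs -/
def sg {m : ℕ} {S : Type} [CommRing S] (h : Ix m → S) (ε : Fin m → Fin 2 → Bool) : Ix m → S
  | (none, j) => h (none, j)
  | (some i, j) => if ε i j then h (some i, j) else -h (some i, j)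

variable {K : Type} [Field K] [NumberField K] (a b : Fin 2 → 𝓞 K) {m : ℕ} (D k : Fin m → ℕ)

lemma om_ne (a b : 𝓞 K) (k : ℕ) : om a b k ≠ 0 := by
  intro h0
  have h1 := om_ev a b Polynomial.C Polynomial.X k
  obtain ⟨p1, p2, p3⟩ := dp_deg a b k
  obtain ⟨m2, _⟩ := cube_monic a b _ _ p1 p3
  rw [Polynomial.eval₂_C_X, Polynomial.eval₂_C_X, Polynomial.eval₂_C_X, h0] at h1
  have h2 : psi a b k * (phi a b k ^ 3 +
        (Polynomial.C a * phi a b k ^ 1 * psi a b k ^ 2 +
          Polynomial.C b * phi a b k ^ 0 * psi a b k ^ 3)) = 0 := by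
    linear_combination (-1) * h1
  exact mul_ne_zero p2 m2.ne_zero h2

lemma base_point (P : MvPolynomial (Fin 2) (𝓞 K)) (hP : P ≠ 0) :
    ∃ x0 : Fin 2 → 𝓞 K, eval x0 P ≠ 0 ∧ (∀ j, x0 j ^ 3 + a j * x0 j + b j ≠ 0) ∧
      ∀ i j, (psi (a j) (b j) (k i)).eval (x0 j) ≠ 0 ∧ (om (a j) (b j) (k i)).eval (x0 j) ≠ 0 := by
  classical
  let Q : Fin 2 → Polynomial (𝓞 K) := fun j =>
    (Polynomial.X ^ 3 + (Polynomial.C (a j) * Polynomial.X + Polynomial.C (b j))) *
      ∏ i, (psi (a j) (b j) (k i) * om (a j) (b j) (k i))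
  have hQ : ∀ j, Q j ≠ 0 := by
    intro j
    refine mul_ne_zero ?_ (Finset.prod_ne_zero_iff.2 (fun i _ =>
      mul_ne_zero (dp_deg _ _ _).2.1 (om_ne _ _ _)))
    refine Polynomial.Monic.ne_zero (Polynomial.monic_X_pow_add ?_)
    exact lt_of_le_of_lt Polynomial.degree_linear_le (by norm_num)
  by_contra hcon
  push Not at hcon
  apply hP
  have hinf : Infinite (𝓞 K) := inferInstance
  refine MvPolynomial.funext_set (fun j => {x | (Q j).eval x ≠ 0}) (fun j => ?_)
    (fun x hx => ?_)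
  · have h1 : {x : 𝓞 K | (Q j).eval x ≠ 0} = {x : 𝓞 K | (Q j).eval x = 0}ᶜ := rfl
    rw [h1]
    refine Set.Finite.infinite_compl ?_
    refine ((Q j).roots.toFinset.finite_toSet).subset (fun x hx => ?_)
    rw [Finset.mem_coe, Multiset.mem_toFinset, Polynomial.mem_roots (hQ j)]
    exact hx
  · rw [map_zero]
    by_contra hne
    have hx' : ∀ j, (Q j).eval (x j) ≠ 0 := fun j => hx j (Set.mem_univ j)
    have h3 : ∀ j, x j ^ 3 + (a j * x j + b j) ≠ 0 ∧
        ∀ i, (psi (a j) (b j) (k i)).eval (x j) * (om (a j) (b j) (k i)).eval (x j) ≠ 0 := by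
      intro j
      have h4 := hx' j
      simp only [Q, Polynomial.eval_mul, Polynomial.eval_add, Polynomial.eval_pow,
        Polynomial.eval_X, Polynomial.eval_C, Polynomial.eval_prod] at h4
      exact ⟨left_ne_zero_of_mul h4, fun i =>
        Finset.prod_ne_zero_iff.1 (right_ne_zero_of_mul h4) i (Finset.mem_univ i)⟩
    obtain ⟨i, j, hij⟩ := hcon x hne (fun j => by rw [add_assoc]; exact (h3 j).1)
    exact right_ne_zero_of_mul ((h3 j).2 i) (hij (left_ne_zero_of_mul ((h3 j).2 i)))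

/-- exponents -/
noncomputable def xp (n : NN D) : Fin m × Fin 2 →₀ ℕ :=
  Finsupp.equivFunOnFinite.symm (fun t => (n t.1 t.2 : ℕ))

omit K in
lemma xp_apply (n : NN D) (t : Fin m × Fin 2) : xp D n t = n t.1 t.2 := rfl

lemma xp_inj {n n' : NN D} (h : xp D n = xp D n') : n = n' := by
  funext i j
  have := DFunLike.congr_fun h (i, j)
  rw [xp_apply, xp_apply] at this
  exact Fin.ext this

theorem exists_point (hG : S_GEN) (F : NN D → MvPolynomial (Fin 2) (𝓞 K)) (hF : F ≠ 0) :
    ∃ (Ω : Type) (_ : Field Ω) (g : 𝓞 K →+* Ω) (x h : Ix m → Ω), OnE a b g x h ∧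
      ∀ ε : Fin m → Fin 2 → Bool, Val a b D k g x (sg h ε) (fun _ _ => true) F ≠ 0 := by
  classical
  obtain ⟨n₀, hn₀⟩ := Function.ne_iff.1 hF
  obtain ⟨x0, h1, h2, h3⟩ := base_point a b k (F n₀) hn₀
  let Ω := AlgebraicClosure K
  let g : 𝓞 K →+* Ω := (algebraMap K Ω).comp (algebraMap (𝓞 K) K)
  have hg : Function.Injective g :=
    (algebraMap K Ω).injective.comp RingOfIntegers.coe_injective
  have hg0 : ∀ x, x ≠ 0 → g x ≠ 0 := fun x hx => (map_ne_zero_iff g hg).2 hx
  have hsq : ∀ j, ∃ h0 : Ω, h0 ^ 2 = g (x0 j) ^ 3 + g (a j) * g (x0 j) + g (b j) := fun j =>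
    IsAlgClosed.exists_pow_nat_eq _ (by norm_num)
  choose h0 hh0 using hsq
  let p : Fin m × Fin 2 → Ω := fun t => (phi (a t.2) (b t.2) (k t.1)).eval₂ g (g (x0 t.2))
  let q : Fin m × Fin 2 → Ω := fun t => (psi (a t.2) (b t.2) (k t.1)).eval₂ g (g (x0 t.2))
  let o : Fin m × Fin 2 → Ω := fun t => (om (a t.2) (b t.2) (k t.1)).eval₂ g (g (x0 t.2))
  have hq : ∀ t, q t ≠ 0 := by
    intro t
    simp only [q]
    rw [Polynomial.eval₂_at_apply]
    exact hg0 _ (h3 _ _).1
  have ho : ∀ t, o t ≠ 0 := by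
    intro t
    simp only [o]
    rw [Polynomial.eval₂_at_apply]
    exact hg0 _ (h3 _ _).2
  have hf : ∀ j, g (x0 j) ^ 3 + g (a j) * g (x0 j) + g (b j) ≠ 0 := by
    intro j
    have := hg0 _ (h2 j)
    rwa [map_add, map_add, map_mul, map_pow] at this
  have hoq : ∀ t, o t ^ 2 * (g (x0 t.2) ^ 3 + g (a t.2) * g (x0 t.2) + g (b t.2)) =
      q t * (p t ^ 3 + g (a t.2) * p t * q t ^ 2 + g (b t.2) * q t ^ 3) := fun t =>
    om_ev (a t.2) (b t.2) g (g (x0 t.2)) (k t.1)
  let c : NN D → Ω := fun n => (F n).eval₂ g (fun j => g (x0 j))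
  have hc : c n₀ ≠ 0 := by
    have h4 : c n₀ = g (eval x0 (F n₀)) := by
      simp only [c]
      rw [show (fun j => g (x0 j)) = g ∘ x0 from rfl, MvPolynomial.eval₂_comp]
    rw [h4]
    exact hg0 _ h1
  let Φ : MvPolynomial (Fin m × Fin 2) Ω := ∑ n : NN D, monomial (xp D n) (c n)
  have hΦ : Φ ≠ 0 := by
    intro h0
    apply hc
    have h4 : coeff (xp D n₀) Φ = c n₀ := by
      simp only [Φ]
      rw [coeff_sum, Finset.sum_eq_single n₀]
      · rw [coeff_monomial, if_pos rfl]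
      · intro n _ hn
        rw [coeff_monomial, if_neg]
        intro h
        exact hn (xp_inj D h)
      · intro h
        exact absurd (Finset.mem_univ _) h
    rw [← h4, h0, coeff_zero]
  obtain ⟨v, hv, hne⟩ := hG Ω (Fin m × Fin 2)
    (fun t => Sp (g (a t.2)) (g (b t.2)) (h0 t.2) (p t) (q t) (o t))
    (fun t Z hZ => by
      obtain ⟨v, hv, hv1, hv2⟩ := avoid (g (a t.2)) (g (b t.2)) (g (x0 t.2)) (h0 t.2) (p t) (q t)
        (o t) (hq t) (ho t) (hh0 t.2) (hf t.2) (hoq t) Z hZ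
      exact ⟨v, hv, hv1, hv2⟩) Φ hΦ
  choose x h hx hA hv1 hv2 using hv
  refine ⟨Ω, inferInstance, g, fun s => s.1.elim (g (x0 s.2)) (fun i => x (i, s.2)),
    fun s => s.1.elim (h0 s.2) (fun i => h (i, s.2)), ?_, ?_⟩
  · rintro ⟨_ | i, j⟩
    · exact hh0 j
    · exact hx (i, j)
  · intro ε
    have hrv : ∀ (i : Fin m) (j : Fin 2) (n : ℕ), n ≤ D i →
        rv a b D k g (fun s => s.1.elim (g (x0 s.2)) (fun i => x (i, s.2)))
          (sg (fun s => s.1.elim (h0 s.2) (fun i => h (i, s.2))) ε) true i j n =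
        ((x (i, j) * q (i, j) - p (i, j)) ^ 2) ^ D i *
          (if ε i j then (v (i, j)).1 else (v (i, j)).2) ^ n := by
      intro i j n hn
      unfold rv
      simp only [if_true, Option.elim_none, Option.elim_some, sg]
      have e1 : ((x (i, j) * q (i, j) - p (i, j)) ^ 2) ^ D i =
          ((x (i, j) * q (i, j) - p (i, j)) ^ 2) ^ n *
            ((x (i, j) * q (i, j) - p (i, j)) ^ 2) ^ (D i - n) := by
        rw [← pow_add, Nat.add_sub_cancel' hn]
      rw [e1]
      have e2 : ∀ V T : Ω, T = V * (x (i, j) * q (i, j) - p (i, j)) ^ 2 →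
          T ^ n * ((x (i, j) * q (i, j) - p (i, j)) ^ 2) ^ (D i - n) =
          ((x (i, j) * q (i, j) - p (i, j)) ^ 2) ^ n *
            ((x (i, j) * q (i, j) - p (i, j)) ^ 2) ^ (D i - n) * V ^ n := by
        intro V T hT
        rw [hT, mul_pow]
        ring
      apply e2
      cases hε : ε i j
      · simp only [Bool.false_eq_true, if_false]
        have := hv2 (i, j)
        simp only [p, q, o] at this ⊢
        rw [← this]
        ring
      · simp only [if_true]
        have := hv1 (i, j)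
        simp only [p, q, o] at this ⊢
        rw [← this]
    have hval : Val a b D k g (fun s => s.1.elim (g (x0 s.2)) (fun i => x (i, s.2)))
        (sg (fun s => s.1.elim (h0 s.2) (fun i => h (i, s.2))) ε) (fun _ _ => true) F =
        (∏ i, ∏ j : Fin 2, ((x (i, j) * q (i, j) - p (i, j)) ^ 2) ^ D i) *
          eval (fun t => if ε t.1 t.2 then (v t).1 else (v t).2) Φ := by
      unfold Val
      simp only [Φ]
      rw [map_sum, Finset.mul_sum]
      refine Finset.sum_congr rfl (fun n _ => ?_)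
      rw [eval_monomial, Finsupp.prod_fintype _ _ (fun _ => pow_zero _), Fintype.prod_prod_type]
      have e3 : ∏ i, ∏ j, rv a b D k g (fun s => s.1.elim (g (x0 s.2)) (fun i => x (i, s.2)))
          (sg (fun s => s.1.elim (h0 s.2) (fun i => h (i, s.2))) ε) true i j (n i j) =
          (∏ i, ∏ j : Fin 2, ((x (i, j) * q (i, j) - p (i, j)) ^ 2) ^ D i) *
          ∏ i, ∏ j : Fin 2, (if ε i j then (v (i, j)).1 else (v (i, j)).2) ^ (n i j : ℕ) := by
        rw [← Finset.prod_mul_distrib]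
        refine Finset.prod_congr rfl (fun i _ => ?_)
        rw [← Finset.prod_mul_distrib]
        refine Finset.prod_congr rfl (fun j _ => ?_)
        exact hrv i j _ (Fin.is_le _)
      rw [e3]
      simp only [Option.elim_none, xp_apply, c]
      ring
    rw [hval]
    refine mul_ne_zero (Finset.prod_ne_zero_iff.2 (fun i _ => Finset.prod_ne_zero_iff.2
      (fun j _ => pow_ne_zero _ (hA (i, j))))) ?_
    exact hne (fun t => ε t.1 t.2)

end Pool.Agent.J4H52.GC
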